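import Mathlib
import Pool.Agent.LibSP4.C4
import Pool.Agent.LibSP4.D3
import Pool.Agent.LibSP4.D4
import Pool.Agent.LibSP4.D5
import Pool.Agent.LibSP4.D6
import Pool.Agent.LibBW4.E2
import Pool.Agent.LibBW4.Main

/-!
# At least half of all `d` are differences of two semiprimes infinitely often

`Semi n` : `n` is the product of two different primes; `Good d` : there are infinitely many `n` such that
`n` and `n + d` are both `Semi` (both are defined in `Pool.Agent.LibSP4.DefsC`).

Outline.  The cluster theorem (first part of the statement): let `H 0`, `H 1`, `H 2` be large sets of integers, each in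
one class modulo `6`.  Choose `n` modulo `36` such that two of the sets `n + H i` are prime to `6` and the third is prime
to `6`, or twice, or three times something prime to `6`.  The sieve weights of Maynard with an unbounded number of forms
and an additional Selberg weight at one form, the Bombieri-Vinogradov theorem for primes and for products of two primes
(level `1/2`) and the Cauchy-Schwarz inequality show: a set prime to `6` contains with (weighted) probability at least
`0.41` a product of two large primes; a set which is `l ∈ {2, 3}` times something prime to `6` contains with probability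
at least `0.24` a number `l * p`.  As `0.41 + 0.41 + 0.24 > 1`, two of the three events happen at the same time for
infinitely many `n`.  The other parts follow by combinatorics (double counting, Kővári–Sós–Turán).
-/

set_option autoImplicit false

namespace Pool.Agent.Results.MP_9d0134_nt.HalfOfAll

open Filter Pool.Agent.LibSP4

/-- (1) Cluster theorem. (2) For every `g ≥ 1` at least half of the multiples `g t` are good. (3) For even `g` at least half
of the `g t` with `3 ∣ t` and at least half of those with `3 ∤ t` are good. (4) Either almost all multiples of `6 q` are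
good or in every residue class modulo `q` at least half of the numbers are good. (5) The good multiples of `g` have
bounded gaps. (6) There is an absolute constant `C` such that every even `g > 0` has a good multiple `g t`, `t ≤ C`,
`3 ∤ t`. -/
theorem result :
    (∃ K : ℕ, ∀ (H : Fin 3 → Finset ℕ) (c : Fin 3 → ℕ), (∀ i, K ≤ (H i).card) → (∀ i, ∀ h ∈ H i, h % 6 = c i) →
      ((∀ i j, c i % 2 = c j % 2) ∨ ∃ i j, i ≠ j ∧ c i % 3 = c j % 3) →
      ∃ i j, i ≠ j ∧ ∃ h ∈ H i, ∃ h' ∈ H j, h < h' ∧ Good (h' - h)) ∧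
    (∀ g : ℕ, 0 < g → ∀ ε : ℝ, 0 < ε → ∀ᶠ X : ℕ in atTop,
      (1 / 2 - ε) * (X : ℝ) ≤ ({t : ℕ | 1 ≤ t ∧ t ≤ X ∧ Good (g * t)}.ncard : ℝ)) ∧
    (∀ g : ℕ, 0 < g → Even g → ∀ ε : ℝ, 0 < ε → ∀ᶠ X : ℕ in atTop,
      (1 / 2 - ε) * ((X : ℝ) / 3) ≤ ({t : ℕ | 1 ≤ t ∧ t ≤ X ∧ 3 ∣ t ∧ Good (g * t)}.ncard : ℝ) ∧
      (1 / 2 - ε) * (2 * (X : ℝ) / 3) ≤ ({t : ℕ | 1 ≤ t ∧ t ≤ X ∧ ¬ 3 ∣ t ∧ Good (g * t)}.ncard : ℝ)) ∧
    (∀ q : ℕ, 0 < q →
      (∀ ε : ℝ, 0 < ε → ∀ᶠ X : ℕ in atTop,
        ({t : ℕ | 1 ≤ t ∧ t ≤ X ∧ 6 * q ∣ t ∧ ¬ Good t}.ncard : ℝ) ≤ ε * X) ∨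
      (∀ a : ℕ, ∀ ε : ℝ, 0 < ε → ∀ᶠ X : ℕ in atTop,
        (1 / 2 - ε) * ((X : ℝ) / q) ≤ ({t : ℕ | 1 ≤ t ∧ t ≤ X ∧ t ≡ a [MOD q] ∧ Good t}.ncard : ℝ))) ∧
    (∀ g : ℕ, 0 < g → ∃ C : ℕ, ∀ x : ℕ, ∃ t, x < t ∧ t ≤ x + C ∧ Good (g * t)) ∧
    (∃ C : ℕ, ∀ g : ℕ, 0 < g → Even g → ∃ t, 0 < t ∧ t ≤ C ∧ ¬ 3 ∣ t ∧ Good (g * t)) := by
  classical
  obtain ⟨K, hK⟩ := cluster Pool.Agent.LibBW4.bv_primes Pool.Agent.LibBW4.bv_e2
  have hn : ∀ (X : ℕ) (p : ℕ → Prop),
      ({t : ℕ | 1 ≤ t ∧ t ≤ X ∧ p t}.ncard : ℝ) = (((Finset.Icc 1 X).filter fun t => p t).card : ℝ) := by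
    intro X p
    rw [← Set.ncard_coe_finset]
    congr 2
    ext t
    simp only [Set.mem_setOf_eq, Finset.coe_filter, Finset.mem_Icc]
    tauto
  refine ⟨⟨K, hK⟩, ?_, ?_, ?_, ?_, ?_⟩
  · intro g hg ε hε
    filter_upwards [density_all K hK g hg ε hε] with X hX
    rw [hn X (fun t => Good (g * t))]
    convert hX
  · intro g hg hg2 ε hε
    filter_upwards [density_even K hK g hg hg2 ε hε] with X hX
    rw [hn X (fun t => 3 ∣ t ∧ Good (g * t)), hn X (fun t => ¬ 3 ∣ t ∧ Good (g * t))]
    refine ⟨?_, ?_⟩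
    · convert hX.1
    · convert hX.2
  · intro q hq
    rcases dichotomy K hK q hq with h | h
    · left
      intro ε hε
      filter_upwards [h ε hε] with X hX
      rw [hn X (fun t => 6 * q ∣ t ∧ ¬ Good t)]
      convert hX
    · right
      intro a ε hε
      filter_upwards [h a ε hε] with X hX
      rw [hn X (fun t => t ≡ a [MOD q] ∧ Good t)]
      convert hX
  · intro g hg
    exact gaps K hK g hg
  · exact ⟨3 * K, fun g hg hg2 => uniform K hK g hg hg2⟩

end Pool.Agent.Results.MP_9d0134_nt.HalfOfAll
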